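import Pool.Agent.Q50.MU.Growth

/-!
# The `μ`-invariants of totally real fields grow strictly in all extensions of degree divisible by `p`: definitions and proofs

Let `p` be an odd prime and `L / E` an extension of totally real fields with `L ∩ E^cyc = E`. If `p` divides `[L : E]` then
`μ(L) ≥ μ(E) + m(E)`, where `m(E)` is the number of the summands `Λ / (p ^ (m_i))` of `X_Σ(E)`; the extension need not be
Galois. If `[L : E]` is divisible by `p ^ μ(E)` then `μ(L) ≥ 2 μ(E)`. For a Galois `p`-extension with group `G` one has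
`μ(L) ≥ μ(E) + (i(G) - 1) m(E)`, where `i(G)` is the number of the irreducible constituents of the regular representation of
`G` over `ℚ`. So `μ(E) = 0` if and only if `μ(L) = μ(E)` for one extension `L` of degree divisible by `p`.
-/

set_option autoImplicit false
set_option maxHeartbeats 4000000
set_option synthInstance.maxHeartbeats 400000

namespace Pool.Agent.Q136.SG.Real

open Pool.Agent.Q173.MU Pool.Agent.Q50.MU IsLocalRing

/-- The field is totally real. -/
def IsTotReal (E : IntermediateField ℚ ℂ) : Prop :=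
  FiniteDimensional ℚ E ∧ ∀ v : NumberField.InfinitePlace E, v.IsReal

/-- `L / E` is an extension of totally real fields with `L ∩ E^cyc = E` and `p ∣ [L : E]` (not necessarily Galois). -/
def IsRealExt (p : ℕ) (E L : IntermediateField ℚ ℂ) : Prop :=
  E ≤ L ∧ IsTotReal E ∧ IsTotReal L ∧ IsDisj p E L ∧ p ∣ deg E L

/-- The known properties of the modules `D.X E = X_Σ(E) ⊗_Λ Λ_(p)` of totally real fields `E`. -/
structure Known (D : IwData) (p : ℕ) : Prop where
  loc : D.IsLoc p
  dvr : IsDvr D.O
  torsion : ∀ E, IsTotReal E → Module.Finite D.O (D.X E) ∧ Module.length D.O (D.X E) ≠ ⊤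
  /-- Square presentations: let `L / E` be a Galois `p`-extension of totally real fields with group `G` such that
  `L ∩ E^cyc = E`. Then `D.X L` has a presentation over the group ring `O[G]` with `m(E)` generators and `m(E)` relations,
  and its coinvariants are `D.X E`. (For a set `Σ` which contains the places ramified in `L` the complex
  `RΓ(𝓞_{E,Σ}, (Λ[G])^∨)^∨` is perfect and its Euler characteristic is zero; by the weak Leopoldt conjecture, proved by
  Iwasawa, its localisation at `(p)` has only one cohomology group, `X_Σ(L) ⊗ O`, which does not depend on `Σ`.) -/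
  pres : ∀ (E L : IntermediateField ℚ ℂ) (h : E ≤ L), IsTotReal E → IsTotReal L → IsExt p h → IsPGroup p (GalGrp h) →
    IsPres D.O (GalGrp h) (D.X L) (D.X E) (D.m E) (D.m E)
  /-- For every extension `L / E` of totally real fields with `L ∩ E^cyc = E` the transfer is injective on the localised
  modules (weak Leopoldt: `H²(G_Σ(E^cyc), M) = 0` for the divisible permutation modules and their quotients), the
  restriction is surjective, and the composite is the multiplication by `[L : E]`. -/
  transfer : ∀ (E L : IntermediateField ℚ ℂ), E ≤ L → IsTotReal E → IsTotReal L → IsDisj p E L →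
    ∃ (j : D.X E →ₗ[D.O] D.X L) (N : D.X L →ₗ[D.O] D.X E), Function.Injective j ∧ Function.Surjective N ∧
      ∀ x, N (j x) = (deg E L : D.O) • x
  /-- Every totally real field has totally real cyclic extensions of degree `p` with `L ∩ E^cyc = E`. -/
  ext : ∀ E, IsTotReal E → ∃ (L : IntermediateField ℚ ℂ) (h : E ≤ L), IsTotReal L ∧ IsExt p h ∧
    IsPGroup p (GalGrp h) ∧ p ∣ deg E L

section

variable {p : ℕ} {D : IwData}

lemma mu_zero_iff (hD : Known D p) {E : IntermediateField ℚ ℂ} (hE : IsTotReal E) : D.mu E = 0 ↔ D.m E = 0 := by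
  obtain ⟨h1, h2⟩ := hD.torsion E hE
  have h3 : D.m E = 0 ↔ Module.length D.O (D.X E) = 0 := rk_eq_zero_iff
  rw [h3]
  unfold IwData.mu
  rw [ENat.toNat_eq_zero]
  constructor
  · rintro (h | h)
    · exact h
    · exact absurd h h2
  · exact Or.inl

lemma m_le_mu (hD : Known D p) {E : IntermediateField ℚ ℂ} (hE : IsTotReal E) : D.m E ≤ D.mu E := by
  obtain ⟨h1, h2⟩ := hD.torsion E hE
  have h3 : ((D.m E : ℕ) : ℕ∞) ≤ Module.length D.O (D.X E) := rk_le_length
  rw [← ENat.natCast_toNat h2] at h3
  exact_mod_cast h3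

/-- **Arbitrary extensions.** -/
lemma mu_le (hD : Known D p) {E L : IntermediateField ℚ ℂ} (hL : IsRealExt p E L) :
    D.mu E + D.m E ≤ D.mu L := by
  obtain ⟨h, hE, hLr, hdj, hdvd⟩ := hL
  obtain ⟨j, N, hj, hN, hjN⟩ := hD.transfer E L h hE hLr hdj
  have hC := hD.loc.2
  obtain ⟨hfin, hlen⟩ := hD.torsion E hE
  have h1 := length_ge_of_dvd (p := p) hlen j N (deg E L) hj hN hjN hdvd
  have h2 := (hD.torsion L hLr).2
  rw [← len_eq h2, ← len_eq hlen] at h1
  exact_mod_cast h1

/-- **Doubling.** -/
lemma two_mu_le (hD : Known D p) {E L : IntermediateField ℚ ℂ} (hL : IsRealExt p E L)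
    (hd : p ^ D.mu E ∣ deg E L) : 2 * D.mu E ≤ D.mu L := by
  obtain ⟨h, hE, hLr, hdj, hdvd⟩ := hL
  obtain ⟨j, N, hj, hN, hjN⟩ := hD.transfer E L h hE hLr hdj
  have hC := hD.loc.2
  obtain ⟨hfin, hlen⟩ := hD.torsion E hE
  exact two_len_le (p := p) (hD.torsion L hLr).2 hlen j N (deg E L) hj hN hjN hd

/-- **Galois `p`-extensions.** -/
lemma mu_le_irr [Fact p.Prime] (hD : Known D p) {E L : IntermediateField ℚ ℂ} (h : E ≤ L) (hE : IsTotReal E)
    (hL : IsTotReal L) (hG : IsExt p h) (hP : IsPGroup p (GalGrp h)) :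
    D.mu E + (irr (GalGrp h) - 1) * D.m E ≤ D.mu L := by
  have hfin := finite_gal hG
  have hC := hD.loc.2
  exact len_ge_irr (p := p) hD.dvr hP (hD.pres E L h hE hL hG hP) (hD.torsion L hL).2 (hD.torsion E hE).2

lemma mu_up (hD : Known D p) {E L : IntermediateField ℚ ℂ} (h : E ≤ L) (hE : IsTotReal E)
    (hL : IsTotReal L) (hG : IsExt p h) (hP : IsPGroup p (GalGrp h)) (h0 : D.mu E = 0) : D.mu L = 0 := by
  have hfin := finite_gal hG
  rw [mu_zero_iff hD hL]
  have h5 : D.m L ≤ Nat.card (GalGrp h) * D.m E := (hD.pres E L h hE hL hG hP).rk_le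
  rw [(mu_zero_iff hD hE).1 h0, mul_zero] at h5
  exact Nat.le_zero.1 h5

end

/-- Let `p` be an odd prime. For a totally real field `E` let `μ(E)` be the `μ`-invariant `∑ m_i` of `X_Σ(E)` and `m(E)` the
number of the summands `Λ / (p ^ (m_i))`. Assume the known properties of the Iwasawa modules.

(0) `m(E) ≤ μ(E)`, and `μ(E) = 0` if and only if `m(E) = 0`.

(1) For ALL extensions `L / E` of totally real fields with `L ∩ E^cyc = E` and `p ∣ [L : E]`, Galois or not:
`μ(L) ≥ μ(E) + m(E)`, and `μ(L) ≥ 2 μ(E)` if `[L : E]` is divisible by `p ^ μ(E)`. So `μ(L) > μ(E)` unless `μ(E) = 0`.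

(2) For ALL Galois `p`-extensions `L / E` of totally real fields with group `G` and `L ∩ E^cyc = E`:
`μ(L) ≥ μ(E) + (i(G) - 1) m(E)`, where `i(G)` is the number of the irreducible constituents of the regular representation of
`G` over `ℚ`. If `G` has order `p ^ n` then `μ(L) ≥ μ(E) + n m(E)`. If `G` is abelian of exponent dividing `N` then
`φ(N) (μ(L) - μ(E)) ≥ ([L : E] - 1) m(E)`. If `L ≠ E` then `μ(E) = 0` if and only if `μ(L) = μ(E)`.

(3) `μ(E) = 0` if and only if `μ(L) = μ(E)` for one extension `L / E` as in (1).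

(4) The conjecture `μ = 0` for all totally real fields holds if and only if every totally real field `E` has an extension
`L` as in (1) with `μ(L) = μ(E)`. -/
theorem full (p : ℕ) [Fact p.Prime] (_ : p ≠ 2) (D : IwData) (hD : Known D p) :
    (∀ E, IsTotReal E → D.m E ≤ D.mu E ∧ (D.mu E = 0 ↔ D.m E = 0)) ∧
    (∀ E L : IntermediateField ℚ ℂ, IsRealExt p E L → D.mu E + D.m E ≤ D.mu L ∧
      (p ^ D.mu E ∣ deg E L → 2 * D.mu E ≤ D.mu L)) ∧
    (∀ (E L : IntermediateField ℚ ℂ) (h : E ≤ L), IsTotReal E → IsTotReal L → IsExt p h → IsPGroup p (GalGrp h) →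
      D.mu E + (irr (GalGrp h) - 1) * D.m E ≤ D.mu L ∧
      (∀ n, deg E L = p ^ n → D.mu E + n * D.m E ≤ D.mu L) ∧
      (∀ N : ℕ, 0 < N → (∀ σ τ : GalGrp h, σ * τ = τ * σ) → (∀ σ : GalGrp h, σ ^ N = 1) →
        (deg E L - 1) * D.m E ≤ N.totient * (D.mu L - D.mu E)) ∧
      (E < L → (D.mu E = 0 ↔ D.mu L = D.mu E))) ∧
    (∀ E, IsTotReal E → (D.mu E = 0 ↔ ∃ L, IsRealExt p E L ∧ D.mu L = D.mu E)) ∧
    ((∀ E, IsTotReal E → D.mu E = 0) ↔ ∀ E, IsTotReal E → ∃ L, IsRealExt p E L ∧ D.mu L = D.mu E) := by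
  have h1 : ∀ E, IsTotReal E → (D.mu E = 0 ↔ ∃ L, IsRealExt p E L ∧ D.mu L = D.mu E) := by
    intro E hE
    constructor
    · intro h0
      obtain ⟨L, h, hL, hG, hP, hdvd⟩ := hD.ext E hE
      exact ⟨L, ⟨h, hE, hL, hG.2.2, hdvd⟩, by rw [mu_up hD h hE hL hG hP h0, h0]⟩
    · rintro ⟨L, hL, hmu⟩
      have h2 := mu_le hD hL
      rw [mu_zero_iff hD hE]
      omega
  refine ⟨fun E hE => ⟨m_le_mu hD hE, mu_zero_iff hD hE⟩, fun E L hL => ⟨mu_le hD hL, two_mu_le hD hL⟩, ?_, h1, ?_⟩
  · intro E L h hE hL hG hP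
    have hfin := finite_gal hG
    have h2 := mu_le_irr hD h hE hL hG hP
    refine ⟨h2, ?_, ?_, ?_⟩
    · intro n hn
      have h3 : n + 1 ≤ irr (GalGrp h) := le_irr_of_card (p := p) (by rw [card_gal hG, hn])
      have h4 : n * D.m E ≤ (irr (GalGrp h) - 1) * D.m E := Nat.mul_le_mul_right _ (by omega)
      omega
    · intro N hN hc hexp
      let _ : CommGroup (GalGrp h) := { (inferInstance : Group (GalGrp h)) with mul_comm := hc }
      have h3 : Nat.card (GalGrp h) ≤ 1 + (irr (GalGrp h) - 1) * N.totient := card_le_irr hN hexp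
      rw [card_gal hG] at h3
      have h4 : (irr (GalGrp h) - 1) * D.m E ≤ D.mu L - D.mu E := by omega
      calc (deg E L - 1) * D.m E ≤ ((irr (GalGrp h) - 1) * N.totient) * D.m E :=
            Nat.mul_le_mul_right _ (by omega)
        _ = N.totient * ((irr (GalGrp h) - 1) * D.m E) := by ring
        _ ≤ N.totient * (D.mu L - D.mu E) := Nat.mul_le_mul_left _ h4
    · intro hlt
      constructor
      · intro h0
        rw [mu_up hD h hE hL hG hP h0, h0]
      · intro hmu
        rw [mu_zero_iff hD hE]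
        have h3 : 1 < Nat.card (GalGrp h) := by
          rw [card_gal hG]
          have h4 : deg E L ≠ 0 := by
            rw [← card_gal hG]
            exact Nat.card_pos.ne'
          have h5 : deg E L ≠ 1 := by
            intro h6
            have h7 := IntermediateField.relfinrank_eq_one_iff.1 h6
            exact absurd h7 hlt.not_ge
          omega
        obtain ⟨n, hn⟩ := (IsPGroup.iff_card.1 hP)
        have hn0 : n ≠ 0 := by
          intro h4
          rw [hn, h4, pow_zero] at h3
          exact lt_irrefl _ h3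
        have h4 : n + 1 ≤ irr (GalGrp h) := le_irr_of_card (p := p) hn
        have h5 : 1 * D.m E ≤ (irr (GalGrp h) - 1) * D.m E := Nat.mul_le_mul_right _ (by omega)
        omega
  · constructor
    · intro hall E hE
      exact (h1 E hE).1 (hall E hE)
    · intro hall E hE
      exact (h1 E hE).2 (hall E hE)

end Pool.Agent.Q136.SG.Real
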